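import Mathlib
import Pool.Agent.X293.GX.Even
import Pool.Agent.Y427.QKE.Evg

/-!
# The numbers of places of a Galois field with a real quadratic subfield
-/

set_option autoImplicit false

namespace Pool.Agent.X293.GY

open NumberField Ideal Polynomial

section

variable (L : Type) [Field L] [NumberField L] [IsGalois ℚ L] (y : L) (D : ℤ)

/-- the stabilizer of `√D` has index two -/
theorem index_two (hy : y ^ 2 = (D : L)) (hD : ¬ IsSquare (D : ℚ)) :
    (MulAction.stabilizer Gal(L/ℚ) y).index = 2 := by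
  obtain ⟨σ, hσ⟩ := Pool.Agent.Y427.QKE.exists_neg L y D hy hD
  have hy0 : y ≠ 0 := by
    rintro rfl
    apply hD
    have h0 : (D : L) = 0 := by rw [← hy]; ring
    have h1 : D = 0 := by exact_mod_cast h0
    rw [h1]
    exact ⟨0, by simp⟩
  have h1 : MulAction.orbit Gal(L/ℚ) y = {y, -y} := by
    ext z
    constructor
    · rintro ⟨τ, rfl⟩
      have h2 : (τ y) ^ 2 = y ^ 2 := by
        rw [← map_pow, hy, map_intCast]
      rcases sq_eq_sq_iff_eq_or_eq_neg.1 h2 with h3 | h3
      · exact Or.inl h3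
      · exact Or.inr h3
    · rintro (rfl | rfl)
      · exact MulAction.mem_orbit_self _
      · exact ⟨σ, hσ⟩
  rw [MulAction.index_stabilizer, h1, Set.ncard_pair]
  intro h
  exact hy0 (self_eq_neg.1 h)

/-- a Galois field with a real quadratic subfield has an even number of infinite places -/
theorem even_places (hy : y ^ 2 = (D : L)) (hD : ¬ IsSquare (D : ℚ)) (hpos : 0 < D) :
    Even (Nat.card (InfinitePlace L)) := by
  classical
  obtain ⟨w⟩ := (inferInstance : Nonempty (InfinitePlace L))
  have h1 : MulAction.orbit Gal(L/ℚ) w = Set.univ := by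
    rw [Set.eq_univ_iff_forall]
    intro w'
    obtain ⟨σ, hσ⟩ := InfinitePlace.exists_smul_eq_of_comap_eq (k := ℚ) (w := w) (w' := w')
      (Subsingleton.elim _ _)
    exact ⟨σ, hσ⟩
  have h2 : (MulAction.stabilizer Gal(L/ℚ) w).index = Nat.card (InfinitePlace L) := by
    rw [MulAction.index_stabilizer, h1, Set.ncard_univ]
  have h3 : MulAction.stabilizer Gal(L/ℚ) w ≤ MulAction.stabilizer Gal(L/ℚ) y := by
    intro σ hσ
    rw [MulAction.mem_stabilizer_iff] at hσ ⊢
    change σ y = y
    have h4 : (σ y) ^ 2 = y ^ 2 := by rw [← map_pow, hy, map_intCast]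
    rcases sq_eq_sq_iff_eq_or_eq_neg.1 h4 with h5 | h5
    · exact h5
    · exfalso
      have h6 : w (σ (1 + y)) = w (1 + y) := by
        conv_lhs => rw [← hσ]
        rw [InfinitePlace.smul_apply]
        simp
      rw [map_add, map_one, h5, ← InfinitePlace.norm_embedding_eq,
        ← InfinitePlace.norm_embedding_eq, map_add, map_add, map_one, map_neg] at h6
      have h7 : (w.embedding y) ^ 2 = ((Real.sqrt (D : ℝ) : ℝ) : ℂ) ^ 2 := by
        rw [← map_pow, hy, map_intCast, ← Complex.ofReal_pow, Real.sq_sqrt (by positivity)]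
        simp
      have h8 : 0 < Real.sqrt (D : ℝ) := Real.sqrt_pos.2 (by exact_mod_cast hpos)
      have key : ∀ a : ℝ, ‖(1 : ℂ) + -(a : ℂ)‖ = ‖(1 : ℂ) + (a : ℂ)‖ → a = 0 := by
        intro a ha
        have e1 : (1 : ℂ) + -(a : ℂ) = ((1 - a : ℝ) : ℂ) := by push_cast; ring
        have e2 : (1 : ℂ) + (a : ℂ) = ((1 + a : ℝ) : ℂ) := by push_cast; ring
        rw [e1, e2, Complex.norm_real, Complex.norm_real, Real.norm_eq_abs, Real.norm_eq_abs,
          abs_eq_abs] at ha
        rcases ha with ha | ha <;> linarith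
      rcases sq_eq_sq_iff_eq_or_eq_neg.1 h7 with h9 | h9
      · rw [h9] at h6
        exact h8.ne' (key _ h6)
      · rw [h9] at h6
        have h10 := key (-Real.sqrt (D : ℝ)) (by
          push_cast
          exact h6)
        linarith
  have h4 := Subgroup.index_dvd_of_le h3
  rw [h2, index_two L y D hy hD] at h4
  exact even_iff_two_dvd.2 h4

/-- a prime that splits in a quadratic subfield has an even number of primes over it -/
theorem even_quad (hy : y ^ 2 = (D : L)) (hD : ¬ IsSquare (D : ℚ)) {p : ℕ} (hp : p.Prime)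
    (h : (p ≠ 2 ∧ (D : ZMod p) ≠ 0 ∧ IsSquare (D : ZMod p)) ∨ (p = 2 ∧ D % 8 = 1)) :
    Even (primesOver (span {(p : ℤ)}) (𝓞 L)).ncard := by
  let K : IntermediateField ℚ L := IntermediateField.adjoin ℚ ({y} : Set L)
  have hint : IsIntegral ℚ y := Algebra.IsIntegral.isIntegral y
  have hf : Module.finrank ℚ K = 2 := by
    rw [IntermediateField.adjoin.finrank hint]
    apply le_antisymm
    · have h1 : minpoly ℚ y ∣ (X ^ 2 - C (D : ℚ)) := by
        apply minpoly.dvd
        simp [hy]
      have h2 := Polynomial.natDegree_le_of_dvd h1 (X_pow_sub_C_ne_zero (by norm_num) _)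
      rwa [natDegree_X_pow_sub_C] at h2
    · rw [minpoly.two_le_natDegree_iff hint]
      rintro ⟨r, hr⟩
      apply hD
      refine ⟨r, ?_⟩
      have h5 : algebraMap ℚ L (D : ℚ) = algebraMap ℚ L (r * r) := by
        rw [map_mul, hr, ← sq, hy]
        simp
      exact (algebraMap ℚ L).injective h5
  have hqe : Algebra.IsQuadraticExtension ℚ K := ⟨hf⟩
  have hgal : IsGalois ℚ K := inferInstance
  let z : K := IntermediateField.AdjoinSimple.gen ℚ y
  have hz : z ^ 2 = (D : K) := by
    apply Subtype.ext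
    push_cast
    exact hy
  have h1 : (primesOver (span {(p : ℤ)}) (𝓞 K)).ncard ≠ 1 := by
    rcases h with ⟨h2, h3, h4⟩ | ⟨rfl, h8⟩
    · exact Pool.Agent.Y427.QKE.odd_case K z D hz hD hp h2 h3 h4
    · exact Pool.Agent.Y427.QKE.two_case K z D hz hD h8
  have h2 := Pool.Agent.Y427.QKE.even_pr K (m := 1) (by rw [hf, pow_one]) hp h1
  exact Pool.Agent.X293.GX.even_primes K L hp h2

end

end Pool.Agent.X293.GY
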