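import Mathlib
import Pool.Agent.X293.GX.Rank

/-!
# The parity of the rank over Galois extensions with a normal 2-complement, abstract subfields
-/

set_option autoImplicit false

open scoped Classical

namespace Pool.Agent.X293.GY

open NumberField Module Pool.Agent.X156.PR Pool.Agent.X293.PT

/-- If all the quadratic extensions of `k` in `L` embed in `M` and the rank over `M` is zero,
then the rank over `L` is even, when the Galois group has a normal subgroup of odd order and index a
power of two. -/
theorem even_rank_base (k M L : Type) [Field k] [NumberField k] [Field M] [NumberField M] [Field L]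
    [NumberField L] [Algebra k M] [Algebra k L]
    [IsGalois k L] (W : WeierstrassCurve k) (hW : W.Δ ≠ 0) (h0 : rank (W.baseChange M) = 0)
    (N : Subgroup (L ≃ₐ[k] L)) [N.Normal] (hN : Odd (Nat.card N)) {n : ℕ}
    (hn : N.index = 2 ^ (n + 1))
    (hq : ∀ F : IntermediateField k L, finrank k F = 2 → Nonempty (F →ₐ[k] M)) :
    Even (rank (W.baseChange L)) := by
  have hfd : FiniteDimensional k L := Module.Finite.of_restrictScalars_finite ℚ k L
  have hW' : (W.baseChange L).Δ ≠ 0 := by
    rw [WeierstrassCurve.baseChange, WeierstrassCurve.map_Δ]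
    exact (map_ne_zero _).2 hW
  have hfg := Grp_finite (W.baseChange L) hW'
  have h1 := parity_rank (A := Grp (W.baseChange L)) N hN hn
  have h2 : ∀ K ∈ (Set.toFinite {K : Subgroup (L ≃ₐ[k] L) | K.index = 2}).toFinset,
      (finrank ℤ (fixA (A := Grp (W.baseChange L)) K) : ZMod 2) = 0 := by
    intro K hK
    rw [Set.Finite.mem_toFinset, Set.mem_ofPred_eq] at hK
    rw [← rank_fix]
    have h3 : finrank k (IntermediateField.fixedField K) = 2 := by
      rw [IntermediateField.finrank_eq_fixingSubgroup_index,
        IntermediateField.fixingSubgroup_fixedField, hK]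
    obtain ⟨e⟩ := hq _ h3
    have hWM : (W.baseChange M).Δ ≠ 0 := by
      rw [WeierstrassCurve.baseChange, WeierstrassCurve.map_Δ]
      exact (map_ne_zero _).2 hW
    have hfM := Grp_finite (W.baseChange M) hWM
    have h5 := LinearMap.finrank_le_finrank_of_injective (f := (mp W e).toIntLinearMap)
      (mp_inj W e)
    have h6 : rank (W.baseChange (IntermediateField.fixedField K)) = 0 := by
      rw [rank_eq]
      refine Nat.le_zero.1 (h5.trans (le_of_eq ?_))
      rw [← rank_eq]
      exact h0
    rw [h6]
    rfl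
  rw [Finset.sum_eq_zero h2] at h1
  rw [rank_eq]
  exact (ZMod.natCast_eq_zero_iff_even).1 h1

/-- the case of the curves over the rationals -/
theorem even_rank (M L : Type) [Field M] [NumberField M] [Field L] [NumberField L]
    [IsGalois ℚ L] {c : ℤ × ℤ} (hD : 4 * c.1 ^ 3 + 27 * c.2 ^ 2 ≠ 0) (h0 : rkE M c = 0)
    (N : Subgroup (L ≃ₐ[ℚ] L)) (hNn : N.Normal) (hN : Odd (Nat.card N)) {n : ℕ}
    (hn : N.index = 2 ^ (n + 1))
    (hq : ∀ F : IntermediateField ℚ L, finrank ℚ F = 2 → Nonempty (F →+* M)) :
    Even (rkE L c) := by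
  rw [← Pool.Agent.X293.GX.rank_bc]
  refine even_rank_base ℚ M L (EQ ℚ c.1 c.2) (Pool.Agent.X293.GX.EQ_ne ℚ hD)
    (by rw [Pool.Agent.X293.GX.rank_bc]; exact h0) N hN hn fun F hF => ?_
  obtain ⟨e⟩ := hq F hF
  exact ⟨e.toRatAlgHom⟩

end Pool.Agent.X293.GY
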