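import Mathlib
import Pool.Agent.X293.GY.Core
import Pool.Agent.X293.GY.Rank
import Pool.Agent.X293.PT.Main2

/-!
# The parity over the Galois fields with two quadratic subfields of a multiquadratic field: the curves
-/

set_option autoImplicit false

namespace Pool.Agent.X293.GY

open Finset Filter NumberField Pool.Agent.W262.RK Pool.Agent.W307.RT Pool.Agent.W307.RS
  Pool.Agent.W307.SE Pool.Agent.W307.FK Pool.Agent.Y667.RP Pool.Agent.Y667.RZ
open Pool.Agent.X293.PT (EQ rkE RootNumberK)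
open Pool.Agent.Y667.QK.R.E (Tup8)

open Classical in
/-- **Main theorem**, ordering by the height. -/
theorem mainH (m N : ℕ) :
    ∃ L : Finset (Fin m → ℕ), (∀ d ∈ L, Tup8 m N d) ∧ ∃ δ : ℝ, 0 < δ ∧ ∃ H0 : ℕ,
      ∀ H : ℕ, H0 ≤ H → ∃ d ∈ L, δ * ((Cv 2 H).card : ℝ) ≤
        (((Cv 2 H).filter (TwG (fun j => (d j : ℤ)))).card : ℝ) := by
  obtain ⟨β, hfl⟩ := Pool.Agent.Y388.QK.FLIP 17 (by norm_num) (by norm_num)
  obtain ⟨n, q, hinj, hpr, δ, hδ, H0, h⟩ := coreG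
    (Pool.Agent.Y667.QK.R.E.mainteE Pool.Agent.Y667.QK.R.pare) Pool.Agent.Y496.QK.BOX
    Pool.Agent.Y697.QK.CVT Pool.Agent.Y388.QK.PRM Pool.Agent.Y67.QKE.TAU Pool.Agent.Y837.QKE.MUL
    hfl m N
  let g : (Fin m → Fin n) × (Fin m → Fin n) → (Fin m → ℕ) :=
    fun t j => q j (t.1 j) * q j (t.2 j)
  refine ⟨((univ : Finset ((Fin m → Fin n) × (Fin m → Fin n))).filter
    (fun t => ∀ j, t.1 j ≠ t.2 j)).image g, ?_, δ, hδ, H0, fun H hH => ?_⟩
  · intro d hd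
    rw [mem_image] at hd
    obtain ⟨t, ht, rfl⟩ := hd
    rw [mem_filter] at ht
    refine ⟨fun j => q j (t.1 j), fun j => q j (t.2 j), fun j => rfl, fun j => hpr _ _,
      fun j => hpr _ _, ?_, ?_, ?_⟩
    · intro x y hxy
      exact (hinj _ _ _ _ hxy).1
    · intro x y hxy
      exact (hinj _ _ _ _ hxy).1
    · intro x y hxy
      obtain ⟨h1, h2⟩ := hinj _ _ _ _ hxy
      subst h1
      exact ht.2 x h2
  · obtain ⟨i, i', hne, hc⟩ := h H hH
    refine ⟨g (i, i'), mem_image.2 ⟨(i, i'), mem_filter.2 ⟨mem_univ _, hne⟩, rfl⟩, ?_⟩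
    exact hc

open Classical in
/-- **Main theorem**, ordering by the minimal discriminant. -/
theorem mainD (m N : ℕ) :
    ∃ L : Finset (Fin m → ℕ), (∀ d ∈ L, Tup8 m N d) ∧ ∃ δ : ℝ, 0 < δ ∧ ∃ Z0 : ℕ,
      ∀ Z : ℕ, Z0 ≤ Z → ∃ d ∈ L, δ * ((Pool.Agent.TH344.DS.Dv Z).card : ℝ) ≤
        (((Pool.Agent.TH344.DS.Dv Z).filter (TwG (fun j => (d j : ℤ)))).card : ℝ) := by
  obtain ⟨L, hL, h⟩ := mainH m N
  exact ⟨L, hL, Pool.Agent.Y667.QK.disc_ex (fun d => d ∈ L) (fun d => TwG (fun j => (d j : ℤ))) h⟩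

/-- rank zero over the field `M`, root number one over the Galois fields `L` containing two quadratic
subfields of `M`, even rank over those with a normal 2-complement whose quadratic subfields embed
in `M` -/
def QG {m : ℕ} (d : Fin m → ℕ) (c : ℤ × ℤ) : Prop :=
  4 * c.1 ^ 3 + 27 * c.2 ^ 2 ≠ 0 → HasT 2 (Sh c.1 c.2) →
    ∀ (M L : Type) [Field M] [NumberField M] [Field L] [NumberField L] [IsGalois ℚ L],
      Pool.Agent.TH841.NF.Gen M (fun j => (d j : ℤ)) →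
      rkE M c = 0 ∧ (TwoQ (fun j => (d j : ℤ)) L → RootNumberK (EQ L c.1 c.2) 1 ∧
      ∀ N : Subgroup (L ≃ₐ[ℚ] L), N.Normal → Odd (Nat.card N) → ∀ n : ℕ, N.index = 2 ^ n →
        (∀ F : IntermediateField ℚ L, Module.finrank ℚ F = 2 → Nonempty (F →+* M)) →
        Even (rkE L c))

/-- the degree is even -/
lemma even_card {m N : ℕ} {d : Fin m → ℕ} (hd : Tup8 m N d) (L : Type) [Field L] [NumberField L]
    [IsGalois ℚ L] (h : TwoQ (fun j => (d j : ℤ)) L) : 2 ∣ Nat.card (L ≃ₐ[ℚ] L) := by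
  obtain ⟨q, q', h1, h2, h3, h4, h5, h6⟩ := hd
  obtain ⟨S, T, hS, -, -, ⟨y, hy⟩, -⟩ := h
  have hD : ¬ IsSquare (((∏ i ∈ S, (d i : ℤ) : ℤ)) : ℚ) := by
    have h7 := Pool.Agent.Y388.QK.not_sq q q' (fun j => (h2 j).1) (fun j => (h3 j).1) h4
      (fun j j' h => absurd h (h6 j j')) S hS
    have e : (((∏ i ∈ S, (d i : ℤ) : ℤ)) : ℚ) = ∏ i ∈ S, ((q i * q' i : ℕ) : ℚ) := by
      rw [Int.cast_prod]
      refine prod_congr rfl fun i _ => ?_
      rw [Int.cast_natCast, h1 i]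
    rw [e]
    exact h7
  rw [← index_two L y _ hy hD]
  exact Subgroup.index_dvd_card _

lemma qg_of_tw {m N : ℕ} {d : Fin m → ℕ} (hd : Tup8 m N d) {c : ℤ × ℤ}
    (h : TwG (fun j => (d j : ℤ)) c) : QG d c := by
  intro hD hT M L _ _ _ _ _ hM
  have hp : ∀ i, (d i : ℤ) ≠ 0 := by
    intro i
    obtain ⟨q, q', h1, h2, h3, -⟩ := hd
    rw [h1 i]
    exact_mod_cast mul_ne_zero (h2 i).1.ne_zero (h3 i).1.ne_zero
  have h0 : rkE M c = 0 := (Pool.Agent.Y667.QK.field_of hp hD hT h.1 M hM).1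
  refine ⟨h0, fun hL => ⟨?_, fun N' hN1 hN2 n hn hq => ?_⟩⟩
  · rw [← Pool.Agent.X293.PT.eq_map ℚ L]
    exact h.2 L hL
  · rcases Nat.eq_zero_or_pos n with rfl | hn0
    · exfalso
      rw [pow_zero, Subgroup.index_eq_one] at hn
      rw [hn, Subgroup.card_top] at hN2
      exact (Nat.not_even_iff_odd.2 hN2) (even_iff_two_dvd.2 (even_card hd L hL))
    · obtain ⟨k, rfl⟩ : ∃ k, n = k + 1 := ⟨n - 1, by omega⟩
      exact even_rank M L hD h0 N' hN1 hN2 hn hq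

end Pool.Agent.X293.GY
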